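import Pool.Agent.R828.CoConsL

/-!
# MP_8dcd4d_gt: a co-consonant space whose Smyth powerspace is not even consonant

The space is `L(P_S(M), P_S(S))`, where `M` and `S` are the metric fan and the sequential fan, and
`L(Z₁, Z₂)` consists of an isolated point and the lexicographic sum of `Z₁` and `Z₂` (open sets
meeting `Z₂` contain `Z₁`).
-/

namespace Pool.Agent.Results.MP_8dcd4d_gt.TwoFans

open Pool.Agent.R828.CC Pool.Agent.Helper800.Cons Pool.Agent.Helper800.ConsL

universe u

/-- `CoConsonant`, `Consonant` and `PS` (the Smyth powerspace) are defined in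
`Pool/Agent/R828/CoCons.lean`; `MultiCons` in `Pool/Agent/R828/CoConsFan.lean`. -/
theorem result :
    -- the counterexample
    (∃ (X : Type) (_ : TopologicalSpace X), T0Space X ∧ CoConsonant X ∧
      ¬ Pool.Agent.R828.CC.Consonant (PS X) ∧ ¬ CoConsonant (PS X)) ∧
    -- a sufficient condition for co-consonance of the Smyth powerspace
    (∀ (Y : Type u) [TopologicalSpace Y], MultiCons Y → CoConsonant (PS Y)) := by
  refine ⟨⟨L (PS (Fan NM)) (PS (Fan NS)), inferInstance, ?_, ?_, ?_⟩, ?_⟩
  · have h1 : T0Space (PS (Fan NM)) := t0_PS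
    have h2 : T0Space (PS (Fan NS)) := t0_PS
    exact Pool.Agent.R828.CC.t0_L
  · exact coConsonant_L (coConsonant_PS_of_multiCons multiCons_M)
      (coConsonant_PS_of_multiCons multiCons_S)
  · have h : ¬ Pool.Agent.R828.CC.Consonant (PS (L (PS (Fan NM)) (PS (Fan NS)))) := fun h =>
      not_cons_sum (cons_of_consonant (consonant_sum h))
    exact ⟨h, fun h' => h (coConsonant_iff_consonant.1 h').1⟩
  · intro Y _ h
    exact coConsonant_PS_of_multiCons h

end Pool.Agent.Results.MP_8dcd4d_gt.TwoFans
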